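import Pool.Agent.P.MP_b4265e_pr.Prob

/-!
Counterexample to Q1 for `p < 1` close to one, in every dimension `d > 2`.
-/

namespace Pool.Agent.P.MP_b4265e_pr.Old.GreenCounterexample

open MeasureTheory ProbabilityTheory Filter Pool.Agent.P.MP_b4265e_pr
open scoped ENNReal

/-- The nearest-neighbour graph on the integer lattice. -/
def lattice (d : ℕ) : SimpleGraph (Fin d → ℤ) where
  Adj x y := ∑ i, |x i - y i| = 1
  symm := ⟨fun x y h => by simpa only [abs_sub_comm] using h⟩
  loopless := ⟨fun x h => by simp at h⟩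

/-- Bernoulli bond percolation: the law of the set of open edges, each edge of the lattice being
open independently with probability `p`. -/
noncomputable def perc (d : ℕ) (p : unitInterval) : Measure (Set (Sym2 (Fin d → ℤ))) :=
  setBernoulli (lattice d).edgeSet p

/-- The graph of open lattice edges. -/
def openGraph {d : ℕ} (ω : Set (Sym2 (Fin d → ℤ))) : SimpleGraph (Fin d → ℤ) :=
  lattice d ⊓ SimpleGraph.fromEdgeSet ω

/-- The critical probability: the supremum of the `p` for which the open cluster of the origin is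
infinite with probability zero. -/
noncomputable def pc (d : ℕ) : unitInterval :=
  sSup {p | perc d p {ω | {y | (openGraph ω).Reachable 0 y}.Infinite} = 0}

variable {d : ℕ}

lemma lattice_adj {x y : V d} :
    (lattice d).Adj x y ↔ ∃ i, y = x + ee i ∨ x = y + ee i := by
  classical
  have key : ∀ (x : V d) (i : Fin d), ∑ j, |x j - (x + ee i) j| = 1 := by
    intro x i
    rw [Finset.sum_eq_single i]
    · simp
    · intro j _ hj; simp [ee_ne hj]
    · simp
  constructor
  · intro h
    change ∑ i, |x i - y i| = 1 at h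
    obtain ⟨i, hi⟩ : ∃ i, x i ≠ y i := by
      by_contra hcon
      push Not at hcon
      simp [hcon] at h
    rw [← Finset.add_sum_erase _ _ (Finset.mem_univ i)] at h
    have h1 : 0 ≤ ∑ j ∈ Finset.univ.erase i, |x j - y j| :=
      Finset.sum_nonneg fun j _ => abs_nonneg _
    have h2 : 0 < |x i - y i| := abs_pos.2 (sub_ne_zero.2 hi)
    have h3 : ∑ j ∈ Finset.univ.erase i, |x j - y j| = 0 := by omega
    have h4 : |x i - y i| = 1 := by omega
    have h5 : ∀ j, j ≠ i → x j = y j := by
      intro j hj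
      have := (Finset.sum_eq_zero_iff_of_nonneg fun j _ => abs_nonneg _).1 h3 j (by simp [hj])
      exact sub_eq_zero.1 (abs_eq_zero.1 this)
    refine ⟨i, ?_⟩
    rcases (abs_eq (by norm_num)).1 h4 with h6 | h6
    · right; funext j
      by_cases hj : j = i
      · subst hj; simp; omega
      · simp [ee_ne hj, h5 j hj]
    · left; funext j
      by_cases hj : j = i
      · subst hj; simp; omega
      · simp [ee_ne hj, h5 j hj]
  · rintro ⟨i, rfl | rfl⟩
    · exact key x i
    · exact (lattice d).adj_symm (key y i)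

/-- The edge variables. -/
def XX (a : E d) (ω : Set (Sym2 (V d))) : Prop := s(a.1, a.1 + ee a.2) ∈ ω

lemma open_adj {ω : Set (Sym2 (V d))} {x y : V d} :
    (openGraph ω).Adj x y ↔ adj (opn XX ω) x y := by
  simp only [openGraph, SimpleGraph.inf_adj, SimpleGraph.fromEdgeSet_adj]
  constructor
  · rintro ⟨h1, h2, _⟩
    obtain ⟨i, rfl | rfl⟩ := lattice_adj.1 h1
    · exact ⟨i, Or.inl ⟨rfl, h2⟩⟩
    · exact ⟨i, Or.inr ⟨rfl, by rw [Sym2.eq_swap] at h2; exact h2⟩⟩
  · rintro ⟨i, ⟨rfl, h⟩ | ⟨rfl, h⟩⟩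
    · have := lattice_adj.2 ⟨i, Or.inl (rfl : x + ee i = x + ee i)⟩
      exact ⟨this, h, this.ne⟩
    · have := lattice_adj.2 ⟨i, Or.inr (rfl : y + ee i = y + ee i)⟩
      exact ⟨this, by rw [Sym2.eq_swap]; exact h, this.ne⟩

lemma open_reach {ω : Set (Sym2 (V d))} {x y : V d} :
    (openGraph ω).Reachable x y ↔ y ∈ comp (opn XX ω) x := by
  rw [SimpleGraph.reachable_iff_reflTransGen]
  have : (openGraph ω).Adj = adj (opn XX ω) := by
    funext a b; exact propext open_adj
  rw [this]; rfl

lemma supp_mk {ω : Set (Sym2 (V d))} (x : V d) :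
    ((openGraph ω).connectedComponentMk x).supp = comp (opn XX ω) x := by
  ext y
  rw [SimpleGraph.ConnectedComponent.mem_supp_iff, SimpleGraph.ConnectedComponent.eq,
    SimpleGraph.reachable_comm, open_reach]

lemma toEdge_inj : Function.Injective fun a : E d => s(a.1, a.1 + ee a.2) := by
  rintro ⟨x, i⟩ ⟨y, j⟩ h
  simp only [Sym2.eq_iff] at h
  rcases h with ⟨rfl, h⟩ | ⟨h1, h2⟩
  · rw [ee_inj (add_left_cancel h)]
  · have e1 := congrFun h1 i
    have e2 := congrFun h2 i
    have := ee_bounds j i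
    simp only [Pi.add_apply, ee_self] at e1 e2
    omega

lemma bern (p : unitInterval) : Bern (perc d p) XX p := by
  have hP : ∀ e : Sym2 (V d), IsProbabilityMeasure
      (unitInterval.toNNReal p • Measure.dirac (e ∈ (lattice d).edgeSet) +
        unitInterval.toNNReal (unitInterval.symm p) • Measure.dirac False) := inferInstance
  refine ⟨fun a => by unfold XX; fun_prop, ?_, fun a => ?_⟩
  · have h0 : iIndepFun (fun (e : Sym2 (V d)) (ω : Set (Sym2 (V d))) => e ∈ ω) (perc d p) := by
      have h1 := iIndepFun_infinitePi (P := fun e : Sym2 (V d) =>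
        unitInterval.toNNReal p • Measure.dirac (e ∈ (lattice d).edgeSet) +
          unitInterval.toNNReal (unitInterval.symm p) • Measure.dirac False)
        (X := fun _ P => P) (fun _ => measurable_id)
      rw [iIndepFun_iff_measure_inter_preimage_eq_mul] at h1 ⊢
      intro S sets H
      simp only [perc, setBernoulli_apply', Set.preimage_iInter]
      exact h1 S H
    exact h0.precomp (g := fun a : E d => s(a.1, a.1 + ee a.2)) toEdge_inj
  · have he : s(a.1, a.1 + ee a.2) ∈ (lattice d).edgeSet := lattice_adj.2 ⟨a.2, Or.inl rfl⟩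
    have : perc d p {ω | XX a ω} = unitInterval.toNNReal p := by
      calc perc d p {ω | XX a ω} = Measure.infinitePi (fun e : Sym2 (V d) =>
            unitInterval.toNNReal p • Measure.dirac (e ∈ (lattice d).edgeSet) +
              unitInterval.toNNReal (unitInterval.symm p) • Measure.dirac False)
            (cylinder {s(a.1, a.1 + ee a.2)} {fun _ => True}) := by
            rw [perc, setBernoulli_apply']; congr!; ext; simp [funext_iff, XX]
        _ = _ := by simp [Measure.infinitePi_cylinder, he]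
    rw [measureReal_def, this]; rfl

lemma norm_le_iff {x : V d} {N : ℕ} : ‖x‖ ≤ N ↔ x ∈ box (0 : V d) N := by
  rw [pi_norm_le_iff_of_nonneg (by positivity), mem_box]
  refine forall_congr' fun k => ?_
  simp only [Int.norm_eq_abs, Pi.zero_apply, sub_zero]
  exact_mod_cast Iff.rfl

lemma ball_eq (N : ℕ) : {x : V d | ‖x‖ ≤ N} = (box (0 : V d) N : Set (V d)) := by
  ext x; simp [norm_le_iff]

theorem result (d : ℕ) (hd : 2 < d) :
    ∃ p₀ : unitInterval, pc d ≤ p₀ ∧ p₀ < 1 ∧ ∀ p : unitInterval, p₀ < p → p < 1 →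
      ∀ᵐ ω ∂perc d p, ∃ C : (openGraph ω).ConnectedComponent, C.supp.Infinite ∧
        (∀ C' : (openGraph ω).ConnectedComponent, C'.supp.Infinite → C' = C) ∧
        ∃ u : (Fin d → ℤ) → ℝ,
          {x ∈ C.supp | ∑ᶠ y ∈ (openGraph ω).neighborSet x, (u y - u x) ≠ 0}.Finite ∧
          (∀ ε : ℝ, 0 < ε → ∃ R : ℝ, ∀ x ∈ C.supp, R ≤ ‖x‖ → |u x| < ε) ∧
          0 < liminf (fun N : ℕ =>
            ({e ∈ (openGraph ω).edgeSet |
                ∀ x ∈ e, x ∈ C.supp ∧ ‖x‖ ≤ N ∧ ∀ y ∈ e, u y - u x = 0}.ncard : ℝ≥0∞) /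
              ({x : Fin d → ℤ | ‖x‖ ≤ N}.ncard : ℝ≥0∞)) atTop ∧
          {x ∈ C.supp | u x ≠ 0}.Infinite := by
  classical
  set i0 : Fin d := ⟨0, by omega⟩ with hi0
  have hA : (1 : ℝ) ≤ Ac d := by
    have : 1 ≤ Dg d ^ 2 := Nat.one_le_pow _ _ (one_le_Dg i0.pos)
    have : 1 ≤ Ac d := by unfold Ac; omega
    exact_mod_cast this
  set A : ℝ := (Ac d : ℝ) with hAdef
  have hB : A ^ 2 ≤ A ^ (2 * d) := pow_le_pow_right₀ hA (by omega)
  have hA2 : A ≤ A ^ 2 := by nlinarith
  set δ : ℝ := 1 / (16 * A ^ (2 * d)) with hδ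
  have hδ0 : 0 < δ := by positivity
  have hδA : 16 * A ^ (2 * d) * δ = 1 := by rw [hδ]; field_simp
  have hδ1 : δ ≤ 1 / 16 := by nlinarith
  have hq1 : ∀ q : ℝ, 0 ≤ q → q ≤ δ → A * q ≤ 1 / 2 := fun q h0 h1 => by nlinarith
  have hq2 : ∀ q : ℝ, 0 ≤ q → q ≤ δ → (4 * A) ^ 2 * q ≤ 1 := fun q h0 h1 => by nlinarith
  have hprob : ∀ p : unitInterval, IsProbabilityMeasure (perc d p) := fun p => by
    unfold perc; infer_instance
  refine ⟨⟨1 - δ, by constructor <;> linarith⟩, ?_, ?_, ?_⟩
  · refine sSup_le fun p hp => ?_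
    by_contra hlt
    have hlt' : 1 - δ < (p : ℝ) := not_le.1 hlt
    have hq0 : 0 ≤ 1 - (p : ℝ) := by linarith [p.2.2]
    have h1 := (bern p).finite_le (by omega) i0 (hq1 _ hq0 (by linarith)) 0
    have h2 : (A * (1 - p)) ^ (2 * d) ≤ (1 / 2) ^ 2 :=
      (pow_le_pow_left₀ (by positivity) (hq1 _ hq0 (by linarith)) _).trans
        (pow_le_pow_of_le_one (by norm_num) (by norm_num) (by omega))
    have h3 : (perc d p).real {ω | (comp (opn XX ω) 0).Infinite} = 0 := by
      have e : {ω : Set (Sym2 (V d)) | (comp (opn XX ω) 0).Infinite} =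
          {ω | {y | (openGraph ω).Reachable 0 y}.Infinite} := by
        ext ω; simp only [Set.mem_ofPred_eq, open_reach]; rfl
      rw [e, measureReal_def, hp]; rfl
    have h4 := measureReal_union_le (μ := perc d p) {ω | (comp (opn XX ω) 0).Infinite}
      {ω | (comp (opn XX ω) 0).Finite}
    have h5 : {ω : Set (Sym2 (V d)) | (comp (opn XX ω) 0).Infinite} ∪
        {ω | (comp (opn XX ω) 0).Finite} = Set.univ := by
      exact Set.eq_univ_of_forall fun ω => (Set.finite_or_infinite _).symm
    rw [h5, h3, probReal_univ] at h4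
    linarith
  · show (1 - δ : ℝ) < 1
    linarith
  intro p hp0 hp1
  have hp0' : 1 - δ < (p : ℝ) := hp0
  have hp1' : (p : ℝ) < 1 := hp1
  set q : ℝ := 1 - p with hq
  have hq0 : 0 < q := by linarith
  have hqδ : q ≤ δ := by linarith
  set c : ℝ := q ^ (2 * d - 1) / 4 with hc
  have hc0 : 0 < c := by positivity
  have hcp : c ≤ p * q ^ (2 * d - 1) - 2 * (A * q) ^ (2 * d) := by
    have e : (A * q) ^ (2 * d) = A ^ (2 * d) * q * q ^ (2 * d - 1) := by
      rw [mul_pow, mul_assoc, ← pow_succ']; congr 2; omega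
    have h1 : A ^ (2 * d) * q ≤ 1 / 16 := by nlinarith
    have h2 : 0 < q ^ (2 * d - 1) := by positivity
    rw [e, hc]; nlinarith
  filter_upwards [(bern p).ae_half i0 (hq2 q hq0.le hqδ),
    (bern p).ae_unique (by omega) i0 (hq1 q hq0.le hqδ),
    (bern p).ae_count (by omega) i0 (hq1 q hq0.le hqδ) hc0 hcp] with ω h1 h2 h3
  set O := opn XX ω with hO
  obtain ⟨x0, hx0d, hx0⟩ : ∃ x0, dang i0 O x0 ∧ (comp O x0).Infinite := by
    obtain ⟨k, hk⟩ := h3.exists
    have : 0 < ((box (0 : V d) (2 ^ k)).filter fun x =>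
        dang i0 O x ∧ (comp O x).Infinite).card := by
      have : (0 : ℝ) ≤ c / 2 * (box (0 : V d) (2 ^ k)).card := by positivity
      exact_mod_cast this.trans_lt hk
    obtain ⟨x, hx⟩ := Finset.card_pos.1 this
    exact ⟨x, (Finset.mem_filter.1 hx).2⟩
  set o := x0 + ee i0 with ho
  have hoc : comp O o = comp O x0 :=
    comp_eq_of_mem (comp_adj (mem_comp_self O x0) ⟨i0, Or.inl ⟨rfl, hx0d.1⟩⟩)
  have hoinf : (comp O o).Infinite := hoc ▸ hx0
  have hond : ¬ dang i0 O o := fun h => h.2.2 i0 (by simpa [ho] using hx0d.1)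
  obtain ⟨g, hg1, hg2, hg3⟩ := green_of_good (by omega) i0 hoinf (h1 o)
  refine ⟨(openGraph ω).connectedComponentMk o, ?_, ?_, g, ?_, ?_, ?_, ?_⟩
  · rw [supp_mk]; exact hoinf
  · intro C' hC'
    induction C' using SimpleGraph.ConnectedComponent.ind with
    | _ y =>
      rw [supp_mk] at hC'
      exact SimpleGraph.ConnectedComponent.sound (open_reach.2 (h2 y o hC' hoinf))
  · refine (Set.finite_singleton o).subset ?_
    rintro x ⟨hx, hx'⟩
    by_contra hxo
    apply hx'
    have : (openGraph ω).neighborSet x = (nbO O x : Set (V d)) := by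
      ext y; simp [mem_nbO, open_adj, hO]
    rw [this, finsum_mem_coe_finset]
    rw [supp_mk] at hx
    exact hg1 x hx hxo
  · intro ε hε
    obtain ⟨R, hR⟩ := exists_box (hg3 ε hε)
    refine ⟨R + 1, fun x _ hx => ?_⟩
    by_contra hcon
    have := norm_le_iff.2 (hR (not_lt.1 hcon))
    linarith
  · have hc' : (0 : ℝ≥0∞) < ENNReal.ofReal (c / 2 / 2 ^ d) := ENNReal.ofReal_pos.2 (by positivity)
    refine hc'.trans_le (le_liminf_of_le (by isBoundedDefault) ?_)
    obtain ⟨k0, hk0⟩ := eventually_atTop.1 h3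
    filter_upwards [eventually_ge_atTop (2 ^ k0 + 1)] with N hN
    have hN1 : N - 1 ≠ 0 := by
      have : 1 ≤ 2 ^ k0 := Nat.one_le_two_pow
      omega
    set k := Nat.log 2 (N - 1) with hk
    have k1 : 2 ^ k ≤ N - 1 := Nat.pow_log_le_self 2 hN1
    have k2 : N - 1 < 2 ^ (k + 1) := Nat.lt_pow_succ_log_self (by norm_num) _
    have k3 : k0 ≤ k := Nat.le_log_of_pow_le (by norm_num) (by omega)
    have h4 := hk0 k k3
    set T := (box (0 : V d) (2 ^ k)).filter fun x => dang i0 O x ∧ (comp O x).Infinite with hT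
    set S := {e ∈ (openGraph ω).edgeSet | ∀ x ∈ e,
      x ∈ ((openGraph ω).connectedComponentMk o).supp ∧ ‖x‖ ≤ N ∧ ∀ y ∈ e, g y - g x = 0} with hS
    have hSfin : S.Finite := by
      refine (Finset.finite_toSet (box (0 : V d) N).sym2).subset fun e he => ?_
      exact Finset.mem_coe.2 (Finset.mem_sym2_iff.2 fun x hx => norm_le_iff.1 (he.2 x hx).2.1)
    have hTS : T.card ≤ S.ncard := by
      rw [← Set.ncard_coe_finset]
      refine Set.ncard_le_ncard_of_injOn (fun x => s(x, x + ee i0)) ?_ ?_ hSfin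
      · intro x hx
        obtain ⟨hb, hd1, hd2⟩ := Finset.mem_filter.1 (Finset.mem_coe.1 hx)
        have hadj : adj O x (x + ee i0) := ⟨i0, Or.inl ⟨rfl, hd1.1⟩⟩
        have hxo : x ∈ comp O o := h2 o x hoinf hd2
        have hne : x ≠ o := fun h => hond (h ▸ hd1)
        have hgx : g (x + ee i0) = g x := by
          have := hg1 x hxo hne
          rw [lap, nbO_of_dang hd1, Finset.sum_singleton] at this
          linarith
        have hb' := mem_box.1 hb
        have hval : ∀ z ∈ s(x, x + ee i0), g z = g x := by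
          intro z hz
          rcases Sym2.mem_iff.1 hz with rfl | rfl
          · rfl
          · exact hgx
        refine ⟨open_adj.2 hadj, fun z hz => ⟨?_, norm_le_iff.2 (mem_box.2 fun l => ?_),
          fun y hy => by rw [hval y hy, hval z hz, sub_self]⟩⟩
        · rw [supp_mk]
          rcases Sym2.mem_iff.1 hz with rfl | rfl
          · exact hxo
          · exact comp_adj hxo hadj
        · have b1 := abs_le.1 (hb' l)
          have b2 := ee_bounds i0 l
          have b3 : ((2 ^ k : ℕ) : ℤ) + 1 ≤ N := by omega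
          simp only [Pi.zero_apply, sub_zero] at b1 ⊢
          rw [abs_le]
          rcases Sym2.mem_iff.1 hz with rfl | rfl
          · omega
          · simp only [Pi.add_apply]; omega
      · intro x _ y _ hxy
        exact (Prod.mk.inj (toEdge_inj (a₁ := (x, i0)) (a₂ := (y, i0)) hxy)).1
    rw [ball_eq, Set.ncard_coe_finset]
    have hbox : ((box (0 : V d) N).card : ℝ) ≤ 2 ^ d * (box (0 : V d) (2 ^ k)).card := by
      rw [card_box, card_box]
      have : (2 * N + 1) ^ d ≤ 2 ^ d * (2 * 2 ^ k + 1) ^ d := by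
        rw [← mul_pow]
        refine Nat.pow_le_pow_left ?_ d
        rw [pow_succ] at k2; omega
      exact_mod_cast this
    have hpos : (0 : ℝ) < (box (0 : V d) N).card := by
      rw [card_box]; positivity
    have hreal : c / 2 / 2 ^ d ≤ (S.ncard : ℝ) / (box (0 : V d) N).card := by
      rw [div_le_div_iff₀ (by positivity) hpos]
      have e1 : (T.card : ℝ) ≤ S.ncard := by exact_mod_cast hTS
      calc c / 2 * (box (0 : V d) N).card ≤ c / 2 * (2 ^ d * (box (0 : V d) (2 ^ k)).card) := by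
            gcongr
        _ = c / 2 * (box (0 : V d) (2 ^ k)).card * 2 ^ d := by ring
        _ ≤ S.ncard * 2 ^ d := by gcongr; exact h4.le.trans e1
    refine (ENNReal.ofReal_le_ofReal hreal).trans_eq ?_
    rw [ENNReal.ofReal_div_of_pos hpos, ENNReal.ofReal_natCast, ENNReal.ofReal_natCast]
  · rw [supp_mk]
    exact hoinf.mono fun x hx => ⟨hx, (hg2 x hx).ne'⟩

end Pool.Agent.P.MP_b4265e_pr.Old.GreenCounterexample
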